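import Pool.Agent.H41.HYP.S2
import Pool.Agent.H14.AVS.S3
import Pool.Agent.H75.PRL.S3

/-!
# HYP: statements of the modules, part 3 (lattices, reciprocity, Selmer groups)
-/

set_option autoImplicit false

namespace Pool.HYP

open Polynomial Matrix Pool.AVS

/-- All entries in `I`. -/
def MIn {L : Type} [Field L] {n : ℕ} (I : Set L) (g : Matrix (Fin n) (Fin n) L) : Prop :=
  ∀ i j, g i j ∈ I

/-- Invertible over `I`. -/
def GIn {L : Type} [Field L] {n : ℕ} (I : Set L) (g : Matrix (Fin n) (Fin n) L) : Prop :=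
  MIn I g ∧ UI I g.det

/-- A matrix over `F[t]` as a matrix over `F(t)`. -/
noncomputable abbrev mK {F : Type} [Field F] {n : ℕ} (G : Matrix (Fin n) (Fin n) F[X]) :
    Matrix (Fin n) (Fin n) (RatFunc F) := G.map (algebraMap F[X] (RatFunc F))

/-- `G` is the orthogonal sum of a hyperbolic plane and `G'`. -/
def Blk2 {L : Type} [Field L] {m : ℕ} (G : Matrix (Fin (m + 2)) (Fin (m + 2)) L)
    (G' : Matrix (Fin m) (Fin m) L) : Prop :=
  G 0 0 = 0 ∧ G 0 1 = 1 ∧ G 1 0 = 1 ∧ G 1 1 = 0 ∧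
    (∀ j : Fin m, G 0 j.succ.succ = 0 ∧ G 1 j.succ.succ = 0 ∧ G j.succ.succ 0 = 0 ∧
      G j.succ.succ 1 = 0) ∧
    ∀ i j : Fin m, G i.succ.succ j.succ.succ = G' i j

/-! ### Lattices -/

/-- BIRN: Birkhoff's factorisation. -/
def BIRNStmt : Prop :=
  ∀ (F : Type) [Field F] (n : ℕ) (g : Matrix (Fin n) (Fin n) (RatFunc F)), g.det ≠ 0 →
    ∃ (γ : Matrix (Fin n) (Fin n) F[X]) (d : Fin n → ℤ)
      (κ : Matrix (Fin n) (Fin n) (RatFunc F)), Monotone d ∧ IsUnit γ.det ∧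
      GIn (Iinf F) κ ∧
      g * mK γ = κ * Matrix.diagonal (fun i => (RatFunc.X : RatFunc F) ^ d i)

/-- DSYM: the degrees of a unimodular symmetric matrix. -/
def DSYMStmt : Prop :=
  ∀ (F : Type) [Field F] (n : ℕ) (G : Matrix (Fin n) (Fin n) F[X]) (d : Fin n → ℤ),
    Monotone d → G.det ≠ 0 → (∀ i j, DegLe (G i j) (d i + d j)) → ∑ i, d i = 0 →
    ∀ i : Fin n, d i + d i.rev = 0

/-- DDM: symmetric degrees. -/
def DDMStmt : Prop :=
  ∀ (g : ℕ) (d : Fin (2 * g + 1) → ℤ), Monotone d → (∀ i, d i + d i.rev = 0) →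
    ∃ μ : Fin g → ℕ, Antitone μ ∧ d = dd μ

/-- HNF: one prime. -/
def HNFStmt : Prop :=
  ∀ (F : Type) [Field F] (n : ℕ) (P : F[X]), P.Monic → Irreducible P →
    ∀ g₀ : Matrix (Fin n) (Fin n) (RatFunc F), g₀.det ≠ 0 →
    ∃ g : Matrix (Fin n) (Fin n) (RatFunc F), g.det ≠ 0 ∧
      (∃ κ, GIn (IP P) κ ∧ g = g₀ * κ) ∧
      ∀ Q : F[X], Q.Monic → Irreducible Q → Q ≠ P → GIn (IP Q) g

/-- GLUN: finitely many primes. -/
def GLUNStmt : Prop :=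
  ∀ (F : Type) [Field F] (n : ℕ) (S : Finset F[X]), (∀ P ∈ S, P.Monic ∧ Irreducible P) →
    ∀ gP : F[X] → Matrix (Fin n) (Fin n) (RatFunc F), (∀ P ∈ S, (gP P).det ≠ 0) →
    ∃ g : Matrix (Fin n) (Fin n) (RatFunc F), g.det ≠ 0 ∧
      (∀ P ∈ S, ∃ κ, GIn (IP P) κ ∧ g = gP P * κ) ∧
      ∀ P : F[X], P.Monic → Irreducible P → P ∉ S → GIn (IP P) g

/-- LATT: the lattice of an everywhere unramified class. -/
def LATTStmt : Prop :=
  ∀ (F : Type) [Field F] [Finite F] (n : ℕ) (f : F[X][X]) (h : (RatFunc F)[X])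
    (T : Finset F[X]), f.Monic → f.natDegree = n → IsCoprime h (fK f) →
    (∀ P ∈ T, P.Monic ∧ Irreducible P) →
    (∀ P : F[X], P.Monic → Irreducible P → US P f h) → (∀ P ∈ T, TR P f h) →
    ∃ (g : Matrix (Fin n) (Fin n) (RatFunc F)) (G S : Matrix (Fin n) (Fin n) F[X]),
      g.det ≠ 0 ∧ gᵀ * gr 0 n (fK f) h * g = mK G ∧ gᵀ * gr 1 n (fK f) h * g = mK S ∧
      Gᵀ = G ∧ Sᵀ = S ∧ IsUnit G.det ∧ ∀ P ∈ T, StdP n P f G S

/-- INF: the lattice at infinity. -/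
def INFStmt : Prop :=
  ∀ (F : Type) [Field F] (g : ℕ) (D : Dat F) (h : ℕ), D.top.Monic →
    D.top.natDegree = 2 * g + 1 → Irreducible D.top → ∀ f ∈ Fam g D h,
    ∀ α : (RatFunc F)[X], IsCoprime α (fK f) → NSq (fK f) α →
    ∃ gi : Matrix (Fin (2 * g + 1)) (Fin (2 * g + 1)) (RatFunc F), gi.det ≠ 0 ∧
      GIn (Iinf F) (giᵀ * gr 0 (2 * g + 1) (fK f) α * gi) ∧
      MIn (Iinf F) (((RatFunc.X : RatFunc F) ^ (-(h : ℤ))) •
        (giᵀ * gr 1 (2 * g + 1) (fK f) α * gi))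

/-- IRR: irreducibility. -/
def IRRStmt : Prop :=
  ∀ (F : Type) [Field F] (g : ℕ) (D : Dat F) (h : ℕ), D.top.Monic →
    D.top.natDegree = 2 * g + 1 → Irreducible D.top → ∀ f ∈ Fam g D h, Irreducible (fK f)

/-- KEY: the pair of matrices of a bad class. -/
def KEYStmt : Prop :=
  ∀ (F : Type) [Field F] [Finite F], (2 : F) ≠ 0 → ∀ (g : ℕ) (D : Dat F) (h : ℕ), 1 ≤ g →
    D.Ok g → ∀ f ∈ Fam g D h, Bad D.T f →
    ∃ (μ : Fin g → ℕ) (G S : Matrix (Fin (2 * g + 1)) (Fin (2 * g + 1)) F[X]),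
      Antitone μ ∧ PM g D h μ f G S

/-! ### Reciprocity -/

/-- HY1: a hyperbolic plane. -/
def HY1Stmt : Prop :=
  ∀ (K : Type) [Field K], (2 : K) ≠ 0 → ∀ (m : ℕ)
    (G : Matrix (Fin (m + 2)) (Fin (m + 2)) K), Gᵀ = G → G.det ≠ 0 →
    (∃ v : Fin (m + 2) → K, v ≠ 0 ∧ v ⬝ᵥ (G *ᵥ v) = 0) →
    ∃ (a : Matrix (Fin (m + 2)) (Fin (m + 2)) K) (G' : Matrix (Fin m) (Fin m) K),
      a.det ≠ 0 ∧ Blk2 (aᵀ * G * a) G' ∧ G'ᵀ = G' ∧ G'.det = -((aᵀ * G * a).det)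

/-- WIT: cancellation of a hyperbolic plane. -/
def WITStmt : Prop :=
  ∀ (L : Type) [Field L] (m g : ℕ) (G : Matrix (Fin (m + 2)) (Fin (m + 2)) L)
    (G' : Matrix (Fin m) (Fin m) L), Blk2 G G' → (SplM (g + 1) G ↔ SplM g G')

/-- RED: reduction to ternary forms. -/
def REDStmt : Prop :=
  ∀ (F : Type) [Field F] [Finite F], (2 : F) ≠ 0 → ∀ (g : ℕ)
    (G : Matrix (Fin (2 * g + 3)) (Fin (2 * g + 3)) (RatFunc F)) (ε : RatFunc F), Gᵀ = G →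
    ε ≠ 0 → G.det = (-1) ^ (g + 1) * ε ^ 2 →
    ∃ (G₃ : Matrix (Fin 3) (Fin 3) (RatFunc F)) (η : RatFunc F), G₃ᵀ = G₃ ∧ η ≠ 0 ∧
      G₃.det = -η ^ 2 ∧ ∀ (L : Type) [Field L] (ι : RatFunc F →+* L),
        (SplM (g + 1) (G.map ι) ↔ SplM 1 (G₃.map ι))

/-- TER: reciprocity for ternary forms. -/
def TERStmt : Prop :=
  ∀ (F : Type) [Field F] [Finite F], (2 : F) ≠ 0 → ∀ (T : Finset F[X])
    (G : Matrix (Fin 3) (Fin 3) (RatFunc F)) (ε : RatFunc F), Gᵀ = G → ε ≠ 0 →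
    G.det = -ε ^ 2 → (∀ P ∈ T, P.Monic ∧ Irreducible P) →
    ∀ (L : F[X] → Type) [∀ P, Field (L P)] (O : ∀ P, ValuationSubring (L P))
    (ι : ∀ P, RatFunc F →+* L P), (∀ P ∈ T, IsComp F (IP P) (rf P) (L P) (O P) (ι P)) →
    (∀ P : F[X], P.Monic → Irreducible P → P ∉ T → ∀ (L' : Type) [Field L']
      (O' : ValuationSubring L') (ι' : RatFunc F →+* L'),
      IsComp F (IP P) (rf P) L' O' ι' → SplM 1 (G.map ι')) →
    (∀ (L' : Type) [Field L'] (O' : ValuationSubring L') (ι' : RatFunc F →+* L'),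
      IsComp F (Iinf F) (RatFunc.X)⁻¹ L' O' ι' → SplM 1 (G.map ι')) →
    Even {P | P ∈ T ∧ ¬ SplM 1 (G.map (ι P))}.ncard

/-- RECN: reciprocity. -/
def RECNStmt : Prop :=
  ∀ (F : Type) [Field F] [Finite F], (2 : F) ≠ 0 → ∀ (g : ℕ) (T : Finset F[X])
    (G : Matrix (Fin (2 * g + 1)) (Fin (2 * g + 1)) (RatFunc F)) (ε : RatFunc F), 1 ≤ g →
    Gᵀ = G → ε ≠ 0 → G.det = (-1) ^ g * ε ^ 2 → (∀ P ∈ T, P.Monic ∧ Irreducible P) →
    ∀ (L : F[X] → Type) [∀ P, Field (L P)] (O : ∀ P, ValuationSubring (L P))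
    (ι : ∀ P, RatFunc F →+* L P), (∀ P ∈ T, IsComp F (IP P) (rf P) (L P) (O P) (ι P)) →
    (∀ P : F[X], P.Monic → Irreducible P → P ∉ T → ∀ (L' : Type) [Field L']
      (O' : ValuationSubring L') (ι' : RatFunc F →+* L'),
      IsComp F (IP P) (rf P) L' O' ι' → SplM g (G.map ι')) →
    (∀ (L' : Type) [Field L'] (O' : ValuationSubring L') (ι' : RatFunc F →+* L'),
      IsComp F (Iinf F) (RatFunc.X)⁻¹ L' O' ι' → SplM g (G.map ι')) →
    Even {P | P ∈ T ∧ ¬ SplM g (G.map (ι P))}.ncard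

/-! ### Selmer groups -/

/-- SE1: the trivial class. -/
def SE1Stmt : Prop :=
  ∀ (F : Type) [Field F] (f : F[X][X]), f.Monic → (1 : (Alg f)ˣ ⧸ Sq f) ∈ Sel f

/-- TWS: a nontrivial element of the Selmer group of the twist. -/
def TWSStmt : Prop :=
  ∀ (F : Type) [Field F] (g : ℕ) (f : F[X][X]) (d : F[X]), f.Monic →
    f.natDegree = 2 * g + 1 → d ≠ 0 → ∀ ξ ∈ Sel (f.scaleRoots d), ξ ≠ 1 →
    ∃ α : (RatFunc F)[X], IsCoprime α (fK f) ∧ NSq (fK f) α ∧ (¬ ∃ s, fK f ∣ α - s ^ 2) ∧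
      ∀ v : IsDedekindDomain.HeightOneSpectrum F[X],
        LSD (algebraMap (RatFunc F) (v.adicCompletion (RatFunc F))) d f α

/-- LDA: the classes of the twist at a prime where the twist is unramified. -/
def LDAStmt : Prop :=
  ∀ (F : Type) [Field F] [Finite F], (2 : F) ≠ 0 → ∀ (g : ℕ) (P : F[X]), P.Monic →
    Irreducible P → ∀ (L : Type) [Field L] (O : ValuationSubring L) (ι : RatFunc F →+* L),
    IsComp F (IP P) (rf P) L O ι → ∀ (f : F[X][X]) (d : F[X]) (α : (RatFunc F)[X]),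
    f.Monic → f.natDegree = 2 * g + 1 → ¬ Sing P f → ¬ P ∣ d → IsCoprime α (fK f) →
    NSq (fK f) α → LSD ι d f α → US P f α

/-- LDB: the classes of the twist at a prime where the twist is ramified. -/
def LDBStmt : Prop :=
  ∀ (F : Type) [Field F] [Finite F], (2 : F) ≠ 0 → ∀ (g : ℕ) (P : F[X]), 1 ≤ g → P.Monic →
    Irreducible P → ∀ (L : Type) [Field L] (O : ValuationSubring L) (ι : RatFunc F →+* L),
    IsComp F (IP P) (rf P) L O ι → ∀ (f : F[X][X]) (d : F[X]) (α : (RatFunc F)[X]) (c : O)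
    (γ : O[X]) (x : Ty), f.Monic → f.natDegree = 2 * g + 1 → OkL O g γ →
    (fK f).map ι = oL O ((X - C c) * γ) → P ∣ d → ¬ P ^ 2 ∣ d → IsCoprime α (fK f) →
    NSq (fK f) α → LSD ι d f α → TyL O (ι (rf P)) c γ x (α.map ι) → x.2 = 0

/-- USM: classes of units form a group. -/
def USMStmt : Prop :=
  ∀ (F : Type) [Field F] (P : F[X]) (f : F[X][X]) (h h' : (RatFunc F)[X]), US P f h →
    US P f h' → US P f (h * h')

/-- ONE: a twist with trivial Selmer group. -/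
def ONEStmt : Prop :=
  ∀ (F : Type) [Field F] [Finite F], (2 : F) ≠ 0 → ∀ (g : ℕ) (D : Dat F) (h : ℕ), 1 ≤ g →
    D.Ok g → ∀ f ∈ Fam g D h, Smooth f → ¬ Bad D.T f →
    ∃ S ⊆ D.T, Sel (f.scaleRoots (∏ P ∈ S, P)) = {1}

end Pool.HYP
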