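import Pool.Agent.H41.HYP.S3

/-!
# HYP: statements of the modules, part 4 (counting pairs of matrices)
-/

set_option autoImplicit false

namespace Pool.HYP

open Polynomial Matrix Pool.AVS

section Defs4

/-- `∑_{i ≤ j} e i j`. -/
def sumLe {n : ℕ} (e : Fin n → Fin n → ℕ) : ℕ := ∑ i, ∑ j, if i ≤ j then e i j else 0

/-- `∑_{i < j} e i j`. -/
def sumLt {n : ℕ} (e : Fin n → Fin n → ℕ) : ℕ := ∑ i, ∑ j, if i < j then e i j else 0

/-- The exponent of the number of the matrices `G`. -/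
def EG {g : ℕ} (μ : Fin g → ℕ) : ℕ := sumLe fun i j => (dd μ i + dd μ j + 1).toNat

/-- The exponent of the number of the matrices `S`. -/
def ES {g : ℕ} (μ : Fin g → ℕ) (h : ℕ) : ℕ := sumLe fun i j => (dd μ i + dd μ j + h + 1).toNat

/-- The exponent of the order of the group. -/
def EU {g : ℕ} (μ : Fin g → ℕ) : ℕ := sumLt fun i j => (dd μ j - dd μ i + 1).toNat

/-- `∑_{i < j} (-(d_i + d_j) + 1)⁺`. -/
def EV {g : ℕ} (μ : Fin g → ℕ) : ℕ := sumLt fun i j => (-(dd μ i + dd μ j) + 1).toNat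

/-- `∑_{i ≤ j} (-(d_i + d_j) - h - 1)⁺`. -/
def EW {g : ℕ} (μ : Fin g → ℕ) (h : ℕ) : ℕ :=
  sumLe fun i j => (-(dd μ i + dd μ j) - h - 1).toNat

/-- The possible `μ`. -/
def Alw {g : ℕ} (h : ℕ) (μ : Fin g → ℕ) : Prop :=
  (∀ i : Fin g, (i : ℕ) + 1 = g → 2 * μ i ≤ h) ∧
    ∀ i j : Fin g, (j : ℕ) = (i : ℕ) + 1 → μ i ≤ μ j + h

variable {F : Type} [Field F]

/-- The polynomials attached to `μ`. -/
def PF (g : ℕ) (D : Dat F) (h : ℕ) (μ : Fin g → ℕ) : Set F[X][X] :=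
  {f ∈ Fam g D h | ∃ G S, PM g D h μ f G S}

/-- The pairs attached to `μ`. -/
def PP (g : ℕ) (D : Dat F) (h : ℕ) (μ : Fin g → ℕ) :
    Set (Matrix (Fin (2 * g + 1)) (Fin (2 * g + 1)) F[X] ×
      Matrix (Fin (2 * g + 1)) (Fin (2 * g + 1)) F[X]) :=
  {p | ∃ f ∈ Fam g D h, PM g D h μ f p.1 p.2}

end Defs4

/-- CTD: the number of polynomials of bounded degree. -/
def CTDStmt : Prop :=
  ∀ (F : Type) [Field F] [Finite F] (m : ℤ),
    {p : F[X] | DegLe p m}.Finite ∧ {p : F[X] | DegLe p m}.ncard = Nat.card F ^ (m + 1).toNat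

/-- CTS: the number of symmetric matrices of bounded degrees. -/
def CTSStmt : Prop :=
  ∀ (F : Type) [Field F] [Finite F] (n : ℕ) (e : Fin n → Fin n → ℤ),
    {G : Matrix (Fin n) (Fin n) F[X] | Gᵀ = G ∧ ∀ i j, DegLe (G i j) (e i j)}.Finite ∧
    {G : Matrix (Fin n) (Fin n) F[X] | Gᵀ = G ∧ ∀ i j, DegLe (G i j) (e i j)}.ncard ≤
      Nat.card F ^ sumLe (fun i j => (e i j + 1).toNat)

/-- CTR: symmetric matrices of bounded degrees with given residues. -/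
def CTRStmt : Prop :=
  ∀ (F : Type) [Field F] [Finite F] (n : ℕ) (T : Finset F[X]),
    (∀ P ∈ T, P.Monic ∧ Irreducible P) →
    ∀ (X : ∀ P : F[X], Set (Matrix (Fin n) (Fin n) (AdjoinRoot P))) (e : Fin n → Fin n → ℤ),
    (∀ i j, ((∑ P ∈ T, P.natDegree : ℕ) : ℤ) ≤ e i j + 1) →
    {S : Matrix (Fin n) (Fin n) F[X] | Sᵀ = S ∧ (∀ i j, DegLe (S i j) (e i j)) ∧
      ∀ P ∈ T, S.map (AdjoinRoot.mk P) ∈ X P}.ncard ≤
      (∏ P ∈ T, (X P).ncard) *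
        Nat.card F ^ sumLe (fun i j => (e i j + 1 - (∑ P ∈ T, P.natDegree : ℕ)).toNat)

/-- CX3: singular symmetric matrices over a finite field. -/
def CX3Stmt : Prop :=
  ∀ (k : Type) [Field k] [Finite k] (n : ℕ),
    {G : Matrix (Fin n) (Fin n) k | Gᵀ = G ∧ G.det = 0}.ncard * Nat.card k ≤
      n * Nat.card k ^ (n * (n + 1) / 2)

/-- CX4: congruence of symmetric matrices over a finite field. -/
def CX4Stmt : Prop :=
  ∀ (k : Type) [Field k] [Finite k], (2 : k) ≠ 0 → ∀ (n : ℕ) (G G' : Matrix (Fin n) (Fin n) k),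
    Gᵀ = G → G'ᵀ = G' → G.det ≠ 0 → G'.det ≠ 0 → IsSquare (G.det * G'.det) →
    ∃ a : Matrix (Fin n) (Fin n) k, a.det ≠ 0 ∧ aᵀ * G * a = G'

/-- CTX: the number of the matrices `S` for given `G`, over a finite field. -/
def CTXStmt : Prop :=
  ∀ (k : Type) [Field k] [Finite k], (2 : k) ≠ 0 → ∀ (g : ℕ) (c : k) (γ : k[X]), 1 ≤ g →
    γ.Monic → γ.natDegree = 2 * g → Irreducible γ →
    ∀ G : Matrix (Fin (2 * g + 1)) (Fin (2 * g + 1)) k,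
    2 * (Nat.card k - (2 * g + 1)) *
      {S : Matrix (Fin (2 * g + 1)) (Fin (2 * g + 1)) k |
        ∃ a : Matrix (Fin (2 * g + 1)) (Fin (2 * g + 1)) k, a.det ≠ 0 ∧
          G = aᵀ * gr 0 (2 * g + 1) ((X - C c) * γ) 1 * a ∧
          S = aᵀ * gr 1 (2 * g + 1) ((X - C c) * γ) 1 * a}.ncard ≤
      Nat.card k * Nat.card k ^ ((2 * g + 1) * g)

/-- CT1: orbits. -/
def CT1Stmt : Prop :=
  ∀ (F : Type) [Field F] [Finite F], (2 : F) ≠ 0 → ∀ (g : ℕ) (D : Dat F) (h : ℕ)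
    (μ : Fin g → ℕ), 1 ≤ g → D.Ok g → Antitone μ →
    (PF g D h μ).ncard * (UU F μ).ncard ≤ 2 * (PP g D h μ).ncard

/-- CT2: the order of the group. -/
def CT2Stmt : Prop :=
  ∀ (F : Type) [Field F] [Finite F] (g : ℕ) (μ : Fin g → ℕ), Antitone μ →
    (UU F μ).Finite ∧ Nat.card F ^ EU μ ≤ (UU F μ).ncard

/-- CTT: the trivial bound for the number of pairs. -/
def CTTStmt : Prop :=
  ∀ (F : Type) [Field F] [Finite F] (g : ℕ) (D : Dat F) (h : ℕ) (μ : Fin g → ℕ),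
    (PP g D h μ).Finite ∧ (PP g D h μ).ncard ≤ Nat.card F ^ (EG μ + ES μ h)

/-- CTM: the bound for the number of pairs with local conditions. -/
def CTMStmt : Prop :=
  ∀ (F : Type) [Field F] [Finite F], (2 : F) ≠ 0 → ∀ (g : ℕ) (D : Dat F) (h : ℕ)
    (μ : Fin g → ℕ), 1 ≤ g → D.Ok g →
    (∀ P ∈ D.T, 2 * (2 * g + 1) * D.T.card ≤ Nat.card F ^ P.natDegree) →
    (∀ i, 2 * μ i + D.deg ≤ h + 1) →
    2 ^ D.T.card * (PP g D h μ).ncard * Nat.card F ^ (D.deg * (2 * g + 1)) ≤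
      2 * Nat.card F ^ (EG μ + (h + 1) * ((2 * g + 1) * (g + 1)))

/-- CTA: the possible `μ`. -/
def CTAStmt : Prop :=
  ∀ (F : Type) [Field F] (g : ℕ) (D : Dat F) (h : ℕ) (μ : Fin g → ℕ), 1 ≤ g →
    D.Ok g → Antitone μ → (PF g D h μ).Nonempty → Alw h μ

/-- PHI: the cusp inequality. -/
def PHIStmt : Prop :=
  ∀ (g h : ℕ) (μ : Fin g → ℕ), Antitone μ → Alw h μ → ∀ (i : Fin g) (m : ℕ), m ≤ μ i →
    2 * m ≤ h → EW μ h + m ≤ EV μ

/-- EXPO: comparison of exponents. -/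
def EXPOStmt : Prop :=
  ∀ (g h : ℕ) (μ : Fin g → ℕ), Antitone μ →
    EG μ + EV μ ≤ EU μ + (2 * g + 1) * (g + 1) ∧ ∑ i, μ i ≤ EV μ ∧
    ES μ h = (h + 1) * ((2 * g + 1) * (g + 1)) + EW μ h

/-- FAMC: the size of the family. -/
def FAMCStmt : Prop :=
  ∀ (F : Type) [Field F] [Finite F] (g : ℕ) (D : Dat F) (h : ℕ), D.Ok g → D.deg ≤ h →
    (Fam g D h).Finite ∧
    (Fam g D h).ncard * Nat.card F ^ (D.deg * (2 * g + 1)) =
      Nat.card F ^ (h * ((2 * g + 1) * (g + 1)))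

/-- GEO: the sum over `μ`. -/
def GEOStmt : Prop :=
  ∀ (g q : ℕ), 3 ≤ q → ∀ A : Finset (Fin g → ℕ),
    ∑ μ ∈ A, ((q : ℝ) ^ (∑ i, μ i))⁻¹ ≤ 2 ^ g

/-- BAD: few polynomials have a bad class. -/
def BADStmt : Prop :=
  ∀ (F : Type) [Field F] [Finite F], (2 : F) ≠ 0 → ∀ g : ℕ, 1 ≤ g →
    ∃ k₀ : ℕ, ∀ D : Dat F, D.Ok g → k₀ ≤ D.T.card →
    (∀ P ∈ D.T, 2 * (2 * g + 1) * D.T.card ≤ Nat.card F ^ P.natDegree) →
    ∃ h₀ : ℕ, ∀ h : ℕ, h₀ ≤ h →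
      8 * {f ∈ Fam g D h | Bad D.T f}.ncard ≤ (Fam g D h).ncard

end Pool.HYP
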