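import Pool.Agent.H41.HYP.S4

/-!
# HYP: statements of the modules, part 5 (density of the smooth curves)
-/

set_option autoImplicit false

namespace Pool.HYP

open Polynomial Matrix Pool.AVS

section Defs5

variable {F : Type} [Field F]

/-- The derivative with respect to `t` of `f ∈ F[t][x]`. -/
noncomputable def Dt (f : F[X][X]) : F[X][X] :=
  f.sum fun i a => monomial i (derivative a)

/-- The translate of `f` by `p`-th powers. -/
noncomputable def trf (p : ℕ) (M : F[X]) (f : F[X][X]) (A B : F[X]) : F[X][X] :=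
  f + C ((M * A) ^ p) + C ((M * B) ^ p) * X

/-- The polynomials of degree less than `a`. -/
def Plt (F : Type) [Field F] (a : ℕ) : Set F[X] := {p | p.degree < a}

/-- `f`, `∂f/∂x` and `∂f/∂t` have a common zero above `P`, and `∂f/∂x` is not zero modulo `P`. -/
def CZ (P : F[X]) (f : F[X][X]) : Prop :=
  (derivative f).map (AdjoinRoot.mk P) ≠ 0 ∧
  ∃ γ : F[X][X], γ.Monic ∧ Irreducible (γ.map (AdjoinRoot.mk P)) ∧
    γ.map (AdjoinRoot.mk P) ∣ f.map (AdjoinRoot.mk P) ∧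
    γ.map (AdjoinRoot.mk P) ∣ (derivative f).map (AdjoinRoot.mk P) ∧
    γ.map (AdjoinRoot.mk P) ∣ (Dt f).map (AdjoinRoot.mk P)

end Defs5

/-- DTP: no singular points above the primes of `T`. -/
def DTPStmt : Prop :=
  ∀ (F : Type) [Field F] [Finite F] (g : ℕ) (D : Dat F) (h : ℕ), 1 ≤ g → D.Ok g →
    ∀ f ∈ Fam g D h, ∀ P ∈ D.T, ¬ Sing P f

/-- DSM: singular points above a small prime. -/
def DSMStmt : Prop :=
  ∀ (F : Type) [Field F] [Finite F] (g : ℕ) (D : Dat F) (h : ℕ) (P : F[X]), 1 ≤ g →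
    D.Ok g → P.Monic → Irreducible P → P ∉ D.T → 2 * P.natDegree + D.deg ≤ h →
    {f ∈ Fam g D h | Sing P f}.ncard * (Nat.card F ^ (2 * P.natDegree) - 1) ≤
      (Fam g D h).ncard

/-- DSU: the sum over the small primes. -/
def DSUStmt : Prop :=
  ∀ (F : Type) [Field F] [Finite F], (2 : F) ≠ 0 → ∀ A : Finset F[X],
    (∀ P ∈ A, P.Monic ∧ Irreducible P) →
    ∑ P ∈ A, ((Nat.card F : ℝ) ^ (2 * P.natDegree) - 1)⁻¹ ≤ 9 / 16

/-- DL1: the derivatives vanish at a singular point. -/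
def DL1Stmt : Prop :=
  ∀ (F : Type) [Field F] (P : F[X]) (f : F[X][X]), P.Monic → Irreducible P → Sing P f →
    (derivative f).map (AdjoinRoot.mk P) = 0 ∨ CZ P f

/-- DLR: the resultant of the derivatives. -/
def DLRStmt : Prop :=
  ∀ (F : Type) [Field F] (H N : ℕ) (a b : F[X][X]), (∀ i, (a.coeff i).natDegree ≤ H) →
    (∀ i, (b.coeff i).natDegree ≤ H) → a.natDegree ≤ N → b.natDegree ≤ N →
    IsCoprime (fK a) (fK b) →
    ∃ ρ : F[X], ρ ≠ 0 ∧ ρ.natDegree ≤ 2 * N * H ∧ ∃ u v : F[X][X], u * a + v * b = C ρ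

/-- DLC: for few `B` the derivatives have a common factor. -/
def DLCStmt : Prop :=
  ∀ (F : Type) [Field F] [Finite F] (p N b : ℕ) (M : F[X]) (e₁ e₂ : F[X][X]), M ≠ 0 →
    CharP F p → p.Prime → e₁ ≠ 0 → e₁.natDegree ≤ N →
    {B ∈ Plt F b | ¬ IsCoprime (fK e₁) (fK (e₂ + C ((M * B) ^ p)))}.ncard ≤ N

/-- DLA: for one prime and one common zero of the derivatives, few `A`. -/
def DLAStmt : Prop :=
  ∀ (F : Type) [Field F] [Finite F] (p a : ℕ) (M P : F[X]) (f γ : F[X][X]), M ≠ 0 →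
    CharP F p → p.Prime → P.Monic → Irreducible P → ¬ P ∣ M → γ.Monic →
    Irreducible (γ.map (AdjoinRoot.mk P)) →
    {A ∈ Plt F a | γ.map (AdjoinRoot.mk P) ∣
        (f + C ((M * A) ^ p)).map (AdjoinRoot.mk P)}.ncard ≤
      Nat.card F ^ (a - min a P.natDegree)

/-- DL2: the number of translates with a common zero of the derivatives above a large prime. -/
def DL2Stmt : Prop :=
  ∀ (F : Type) [Field F] [Finite F] (p N H a b e : ℕ) (M : F[X]) (f : F[X][X]), M ≠ 0 →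
    CharP F p → p.Prime → 1 ≤ N → 1 ≤ e → f.natDegree ≤ N →
    (∀ i, (f.coeff i).natDegree ≤ H) → p * (M.natDegree + a) ≤ H → p * (M.natDegree + b) ≤ H →
    Dt f ≠ 0 →
    {q : F[X] × F[X] | q.1 ∈ Plt F a ∧ q.2 ∈ Plt F b ∧ ∃ P : F[X], P.Monic ∧ Irreducible P ∧
        ¬ P ∣ M ∧ e ≤ P.natDegree ∧ CZ P (trf p M f q.1 q.2)}.ncard * e ≤
      N * e * Nat.card F ^ a + 2 * N * N * H * Nat.card F ^ (b + (a - min a e))

/-- DL3: two coefficients with a large common factor. -/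
def DL3Stmt : Prop :=
  ∀ (F : Type) [Field F] [Finite F], (2 : F) ≠ 0 → ∀ (g : ℕ) (D : Dat F), 1 ≤ g →
    D.Ok g → ∀ ε : ℝ, 0 < ε → ∃ h₀ : ℕ, ∀ h : ℕ, h₀ ≤ h →
    ({f ∈ Fam g D h | ∃ P : F[X], P.Monic ∧ Irreducible P ∧ P ∉ D.T ∧
      h < 2 * P.natDegree + D.deg ∧ (derivative f).map (AdjoinRoot.mk P) = 0}.ncard : ℝ) ≤
      ε * (Fam g D h).ncard

/-- DL4: few `f` with zero derivative with respect to `t`. -/
def DL4Stmt : Prop :=
  ∀ (F : Type) [Field F] [Finite F], (2 : F) ≠ 0 → ∀ (g : ℕ) (D : Dat F), 1 ≤ g →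
    D.Ok g → ∀ ε : ℝ, 0 < ε → ∃ h₀ : ℕ, ∀ h : ℕ, h₀ ≤ h →
    ({f ∈ Fam g D h | Dt f = 0}.ncard : ℝ) ≤ ε * (Fam g D h).ncard

/-- DL5: few `f` with a common zero of `f` and its derivatives above a large prime. -/
def DL5Stmt : Prop :=
  ∀ (F : Type) [Field F] [Finite F], (2 : F) ≠ 0 → ∀ (g : ℕ) (D : Dat F), 1 ≤ g →
    D.Ok g → ∀ ε : ℝ, 0 < ε → ∃ h₀ : ℕ, ∀ h : ℕ, h₀ ≤ h →
    ({f ∈ Fam g D h | ∃ P : F[X], P.Monic ∧ Irreducible P ∧ P ∉ D.T ∧
      h < 2 * P.natDegree + D.deg ∧ CZ P f}.ncard : ℝ) ≤ ε * (Fam g D h).ncard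

/-- DEN: many smooth curves. -/
def DENStmt : Prop :=
  ∀ (F : Type) [Field F] [Finite F], (2 : F) ≠ 0 → ∀ (g : ℕ) (D : Dat F), 1 ≤ g →
    D.Ok g → ∃ h₀ : ℕ, ∀ h : ℕ, h₀ ≤ h →
    5 * {f ∈ Fam g D h | ¬ Smooth f}.ncard ≤ 3 * (Fam g D h).ncard

end Pool.HYP
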