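import Pool.Agent.H41.HYP.S6

/-!
# HYP: statements of the modules, part 7 (the strong form: minimal equations of exact height)
-/

set_option autoImplicit false

namespace Pool.HYP

open Polynomial Matrix Pool.AVS

section Defs7

variable {F : Type} [Field F]

/-- The equation is minimal: it is not obtained from another one by the substitution
`x ↦ (x - c) / P ^ 2`. -/
def Mini (f : F[X][X]) : Prop :=
  ∀ P : F[X], P.Monic → Irreducible P → ∀ (c : F[X]) (f' : F[X][X]), f'.Monic →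
    f ≠ (f'.scaleRoots (P ^ 2)).comp (X - C c)

/-- The polynomial of the coefficients of `t ^ (i h)` in `a_i`, where
`f = x^n + a_1 x^(n-1) + ... + a_n`. -/
noncomputable def topOf (n h : ℕ) (f : F[X][X]) : F[X] :=
  ∑ i ∈ Finset.range (n + 1), monomial (n - i) ((f.coeff (n - i)).coeff (i * h))

end Defs7

/-- The main theorem, strong form. -/
def StrongStmt (F : Type) [Field F] : Prop :=
  ∀ g : ℕ, 1 ≤ g → ∃ δ : ℝ, 0 < δ ∧ ∃ h0 : ℕ, ∀ h : ℕ, h0 ≤ h →
    (Hyp F g h).Finite ∧ 0 < (Hyp F g h).ncard ∧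
    δ * (Hyp F g h).ncard ≤ {f ∈ Hyp F g h | (Sel f).ncard = 1 ∧ Mini f ∧
      Irreducible (topOf (2 * g + 1) h f)}.ncard

/-- The main theorem for the equations with `a_1 = 0`. -/
def StrongZStmt (F : Type) [Field F] : Prop :=
  ∀ g : ℕ, 1 ≤ g → ((2 * g + 1 : ℕ) : F) ≠ 0 →
    ∃ δ : ℝ, 0 < δ ∧ ∃ h0 : ℕ, ∀ h : ℕ, h0 ≤ h →
    0 < {f ∈ Hyp F g h | f.coeff (2 * g) = 0}.ncard ∧
    δ * {f ∈ Hyp F g h | f.coeff (2 * g) = 0}.ncard ≤
      {f ∈ Hyp F g h | f.coeff (2 * g) = 0 ∧ (Sel f).ncard = 1 ∧ Mini f ∧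
      Irreducible (topOf (2 * g + 1) h f)}.ncard

/-- IRU: at a prime modulo which `f` is irreducible of odd degree all classes are classes of
units. -/
def IRUStmt : Prop :=
  ∀ (F : Type) [Field F] [Finite F] (R : F[X]) (f : F[X][X]) (α : (RatFunc F)[X]),
    R.Monic → Irreducible R → f.Monic → Odd f.natDegree →
    Irreducible (f.map (AdjoinRoot.mk R)) → IsCoprime α (fK f) → NSq (fK f) α → US R f α

/-- ON2: a twist with trivial Selmer group, and further twists. -/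
def ON2Stmt : Prop :=
  ∀ (F : Type) [Field F] [Finite F], (2 : F) ≠ 0 → ∀ (g : ℕ) (D : Dat F) (h : ℕ), 1 ≤ g →
    D.Ok g → ∀ f ∈ Fam g D h, Smooth f → ¬ Bad D.T f →
    ∃ S ⊆ D.T, ∀ r : F[X], r ≠ 0 →
      (∀ R : F[X], R.Monic → Irreducible R → R ∣ r →
        R ∉ D.T ∧ Irreducible (f.map (AdjoinRoot.mk R))) →
      Sel (f.scaleRoots ((∏ P ∈ S, P) * r)) = {1}

/-- MIN: the twists are minimal. -/
def MINStmt : Prop :=
  ∀ (F : Type) [Field F] [Finite F] (g : ℕ) (D : Dat F) (h : ℕ), 1 ≤ g → D.Ok g →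
    ∀ f ∈ Fam g D h, Smooth f → ∀ d : F[X], Squarefree d →
    (∀ R : F[X], R.Monic → Irreducible R → R ∣ d →
      R ∈ D.T ∨ Irreducible (f.map (AdjoinRoot.mk R))) →
    Mini (f.scaleRoots d)

/-- TOP: the top coefficients of the twists. -/
def TOPStmt : Prop :=
  ∀ (F : Type) [Field F] (g : ℕ) (D : Dat F) (h : ℕ), D.Ok g → ∀ f ∈ Fam g D h,
    ∀ d : F[X], d.Monic → topOf (2 * g + 1) (h + d.natDegree) (f.scaleRoots d) = D.top

/-- HYM: the twists are in the family of all polynomials. -/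
def HYMStmt : Prop :=
  ∀ (F : Type) [Field F] [Finite F] (g : ℕ) (D : Dat F) (h : ℕ), D.Ok g → ∀ f ∈ Fam g D h,
    ∀ d : F[X], d.Monic → f.scaleRoots d ∈ Hyp F g (h + d.natDegree)

/-- IRP: for most `f` there are many primes of degree `e` modulo which `f` is irreducible. -/
def IRPStmt : Prop :=
  ∀ (F : Type) [Field F] [Finite F], (2 : F) ≠ 0 → ∀ (g k : ℕ), 1 ≤ g →
    ∃ (D : Dat F) (e : ℕ), D.Ok g ∧ D.T.card = k ∧ (∀ P ∈ D.T, P.natDegree = e) ∧
      2 * (2 * g + 1) * k ≤ Nat.card F ^ e ∧ ∃ h₀ : ℕ, ∀ h : ℕ, h₀ ≤ h →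
      100 * {f ∈ Fam g D h | ¬ ∃ A : Finset F[X], A.card = k ∧ ∀ R ∈ A, R.Monic ∧
        Irreducible R ∧ R.natDegree = e ∧ R ∉ D.T ∧
        Irreducible (f.map (AdjoinRoot.mk R))}.ncard ≤ (Fam g D h).ncard

/-- STR: the strong form from its parts. -/
def STRStmt : Prop := ∀ (F : Type) [Field F] [Finite F], (2 : F) ≠ 0 → StrongStmt F

/-- TRN: translation of `x` and the Selmer group, minimality and the top coefficients. -/
def TRNStmt : Prop :=
  ∀ (F : Type) [Field F] [Finite F] (g h : ℕ) (f : F[X][X]) (c : F[X]), f ∈ Hyp F g h →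
    c.natDegree ≤ h →
    f.comp (X - C c) ∈ Hyp F g h ∧ (Sel (f.comp (X - C c))).ncard = (Sel f).ncard ∧
    (Mini (f.comp (X - C c)) ↔ Mini f) ∧
    (Irreducible (topOf (2 * g + 1) h (f.comp (X - C c))) ↔
      Irreducible (topOf (2 * g + 1) h f)) ∧
    (f.comp (X - C c)).coeff (2 * g) = f.coeff (2 * g) - (2 * g + 1 : ℕ) * c

/-- STZ: the strong form for the equations with `a_1 = 0`. -/
def STZStmt : Prop := ∀ (F : Type) [Field F] [Finite F], (2 : F) ≠ 0 → StrongZStmt F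

end Pool.HYP
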