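import Pool.Agent.H41.HYP.Defs
import Pool.Agent.H14.AVS.Defs

/-!
# HYP: auxiliary definitions
-/

set_option autoImplicit false

namespace Pool.HYP

open Polynomial Matrix Pool.AVS

section General

variable {R : Type} [CommRing R]

/-- The coefficient of `x^(n-1)` of the remainder modulo `f`, `n` the degree of `f`. -/
noncomputable def tau (f p : R[X]) : R := (p %ₘ f).coeff (f.natDegree - 1)

/-- The matrix of the numbers `τ(x^(i+j+k) h)`. -/
noncomputable def gr (k n : ℕ) (f h : R[X]) : Matrix (Fin n) (Fin n) R :=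
  Matrix.of fun i j => tau f (X ^ ((i : ℕ) + (j : ℕ) + k) * h)

/-- `x G - S`. -/
noncomputable def pen {n : ℕ} (G S : Matrix (Fin n) (Fin n) R) : Matrix (Fin n) (Fin n) R[X] :=
  Matrix.of fun i j => X * C (G i j) - C (S i j)

/-- The symmetric matrix `G` has a totally isotropic subspace of dimension `g`. -/
def SplM {L : Type} [Field L] (g : ℕ) {n : ℕ} (G : Matrix (Fin n) (Fin n) L) : Prop :=
  ∃ e : Fin g → Fin n → L, LinearIndependent L e ∧ ∀ i j, e i ⬝ᵥ (G *ᵥ e j) = 0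

/-- `(G, S)` is the pair of Gram matrices of `p, q ↦ τ(p q h)` and `p, q ↦ τ(x p q h)` for `n`
polynomials `e i`. -/
def Rep {K : Type} [Field K] (n : ℕ) (f h : K[X]) (G S : Matrix (Fin n) (Fin n) K) : Prop :=
  ∃ e : Fin n → K[X], (∀ i j, tau f (e i * e j * h) = G i j) ∧
    ∀ i j, tau f (X * (e i * e j * h)) = S i j

/-- The norm of `h` from `K[x]/(f)` is a square. -/
def NSq {K : Type} [Field K] (f h : K[X]) : Prop := IsSquare (Algebra.norm K (AdjoinRoot.mk f h))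

/-- `(-1)^(deg u) u`. -/
noncomputable def kap {K : Type} [Field K] (u : K[X]) : K[X] := (-1) ^ u.natDegree * u

end General

section Function

variable {F : Type} [Field F]

/-- A polynomial as an element of `F(t)`. -/
noncomputable abbrev rf (p : F[X]) : RatFunc F := algebraMap F[X] (RatFunc F) p

/-- `a` is a square modulo `P`. -/
def SqM (P a : F[X]) : Prop := ∃ w : F[X], P ∣ a - w ^ 2

/-- `p` is a unit modulo `(P, f)`. -/
def UnP (P : F[X]) (f p : F[X][X]) : Prop := ∃ a b c : F[X][X], a * p + b * f + C P * c = 1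

/-- At `P`, the class of `h` is the class of a unit. -/
def US (P : F[X]) (f : F[X][X]) (h : (RatFunc F)[X]) : Prop :=
  ∃ (s : (RatFunc F)[X]) (p : F[X][X]), IsCoprime s (fK f) ∧ fK f ∣ h * s ^ 2 - fK p ∧ UnP P f p

/-- At `P`, the class of `h` is trivial. -/
def TR (P : F[X]) (f : F[X][X]) (h : (RatFunc F)[X]) : Prop :=
  ∃ (s : (RatFunc F)[X]) (p : F[X][X]), IsCoprime s (fK f) ∧
    fK f ∣ h * s ^ 2 - fK (1 + C P * p)

/-- The group of types. -/
abbrev Ty : Type := ZMod 2 × ZMod 2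

/-- The curve `f = 0` has a singular point above `P`. -/
def Sing (P : F[X]) (f : F[X][X]) : Prop :=
  ∃ γ a b c : F[X][X], γ.Monic ∧ Irreducible (γ.map (AdjoinRoot.mk P)) ∧
    f = γ ^ 2 * a + C P * (γ * b) + C (P ^ 2) * c

/-- The curve `f = 0` is smooth. -/
def Smooth (f : F[X][X]) : Prop := ∀ P : F[X], P.Monic → Irreducible P → ¬ Sing P f

/-- Local data at the primes of a finite set `T` and at infinity. -/
structure Dat (F : Type) [Field F] where
  /-- the primes -/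
  T : Finset F[X]
  /-- the roots -/
  c : F[X] → F[X]
  /-- the factors of degree `2 g` -/
  γ : F[X] → F[X][X]
  /-- the polynomial at infinity -/
  top : F[X]

/-- `γ` is monic of degree `2 g` and irreducible modulo `P`. -/
def OkP (g : ℕ) (P : F[X]) (γ : F[X][X]) : Prop :=
  P.Monic ∧ Irreducible P ∧ γ.Monic ∧ γ.natDegree = 2 * g ∧
    Irreducible (γ.map (AdjoinRoot.mk P))

/-- The conditions on the data. -/
def Dat.Ok (D : Dat F) (g : ℕ) : Prop :=
  (∀ P ∈ D.T, OkP g P (D.γ P)) ∧ D.top.Monic ∧ D.top.natDegree = 2 * g + 1 ∧ Irreducible D.top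

/-- The degree of the product of the primes. -/
noncomputable def Dat.deg (D : Dat F) : ℕ := ∑ P ∈ D.T, P.natDegree

/-- The family: `f` is `(x - c) γ` modulo `P` for `P ∈ T`, and its top coefficients are those of
`top`. -/
def Fam (g : ℕ) (D : Dat F) (h : ℕ) : Set F[X][X] :=
  {f | f.Monic ∧ f.natDegree = 2 * g + 1 ∧
    (∀ i ≤ 2 * g + 1, (f.coeff (2 * g + 1 - i)).natDegree ≤ i * h ∧
      (f.coeff (2 * g + 1 - i)).coeff (i * h) = D.top.coeff (2 * g + 1 - i)) ∧
    ∀ P ∈ D.T, C P ∣ f - (X - C (D.c P)) * D.γ P}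

/-- There is a nontrivial class which is the class of a unit everywhere and trivial at all primes of
`T`. -/
def Bad (T : Finset F[X]) (f : F[X][X]) : Prop :=
  ∃ h : (RatFunc F)[X], IsCoprime h (fK f) ∧ NSq (fK f) h ∧ (¬ ∃ s, fK f ∣ h - s ^ 2) ∧
    (∀ P : F[X], P.Monic → Irreducible P → US P f h) ∧ ∀ P ∈ T, TR P f h

/-- Over `L`, the class of `h` (for `f`) is the class of a divisor of the twist
`y² = d^(2g+1) f(x/d)`. -/
def LSD {L : Type} [Field L] (ι : RatFunc F →+* L) (d : F[X]) (f : F[X][X])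
    (h : (RatFunc F)[X]) : Prop :=
  ∃ u w s : L[X], u.Monic ∧ IsCoprime u ((fK (f.scaleRoots d)).map ι) ∧
    u ∣ w ^ 2 - (fK (f.scaleRoots d)).map ι ∧
    (fK f).map ι ∣ kap (u.comp (C (ι (rf d)) * X)) - h.map ι * s ^ 2

/-- Modulo `P`, the pair `(G, S)` is congruent to the standard pair of `f`. -/
def StdP (n : ℕ) (P : F[X]) (f : F[X][X]) (G S : Matrix (Fin n) (Fin n) F[X]) : Prop :=
  ∃ a : Matrix (Fin n) (Fin n) F[X], ¬ P ∣ a.det ∧
    (∀ i j, P ∣ (G - aᵀ * gr 0 n f 1 * a) i j) ∧ ∀ i j, P ∣ (S - aᵀ * gr 1 n f 1 * a) i j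

/-- The degrees `(-μ 0, ..., -μ (g-1), 0, μ (g-1), ..., μ 0)`. -/
def dd {g : ℕ} (μ : Fin g → ℕ) : Fin (2 * g + 1) → ℤ := fun i =>
  if h : (i : ℕ) < g then -(μ ⟨i, h⟩ : ℤ)
  else if h' : 2 * g - (i : ℕ) < g then (μ ⟨2 * g - (i : ℕ), h'⟩ : ℤ) else 0

/-- Polynomials of degree at most `m`, `m` an integer. -/
def DegLe (p : F[X]) (m : ℤ) : Prop := p ≠ 0 → (p.natDegree : ℤ) ≤ m

/-- The pairs of symmetric matrices attached to `f` and `μ`. -/
def PM (g : ℕ) (D : Dat F) (h : ℕ) (μ : Fin g → ℕ) (f : F[X][X])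
    (G S : Matrix (Fin (2 * g + 1)) (Fin (2 * g + 1)) F[X]) : Prop :=
  Gᵀ = G ∧ Sᵀ = S ∧ (∀ i j, DegLe (G i j) (dd μ i + dd μ j)) ∧
    (∀ i j, DegLe (S i j) (dd μ i + dd μ j + h)) ∧ IsUnit G.det ∧
    (pen G S).det = C G.det * f ∧ (∀ P ∈ D.T, StdP (2 * g + 1) P f G S) ∧
    ¬ ∀ i j : Fin (2 * g + 1), (i : ℕ) < g → (j : ℕ) < g → G i j = 0 ∧ S i j = 0

/-- The upper triangular matrices with constant nonzero diagonal entries and with entries of degree
at most `d_j - d_i`. -/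
def UU {g : ℕ} (F : Type) [Field F] (μ : Fin g → ℕ) :
    Set (Matrix (Fin (2 * g + 1)) (Fin (2 * g + 1)) F[X]) :=
  {u | (∀ i, ∃ ε : F, ε ≠ 0 ∧ u i i = C ε) ∧ (∀ i j, j < i → u i j = 0) ∧
    ∀ i j, i < j → DegLe (u i j) (dd μ j - dd μ i)}

end Function

end Pool.HYP
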