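import Mathlib

/-!
# Hyperelliptic curves over `F(t)`, `F` finite of odd order: definitions

`K = F(t)`, `g ≥ 1`, `f ∈ F[t][x]` monic of degree `2 g + 1` in `x`, `C_f : y² = f(x)`, a curve of
genus `g` over `K` with a rational point at infinity, and `J_f` its Jacobian.
-/

set_option autoImplicit false

namespace Pool.HYP

open Polynomial Matrix

section Main

variable {F : Type} [Field F]

/-- A polynomial in `x` over `F[t]` as a polynomial over `F(t)`. -/
noncomputable abbrev fK (f : F[X][X]) : (RatFunc F)[X] := f.map (algebraMap F[X] (RatFunc F))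

/-- The étale algebra `F(t)[x] / (f)`. -/
noncomputable abbrev Alg (f : F[X][X]) : Type := AdjoinRoot (fK f)

/-- The squares of the units of the algebra. -/
noncomputable abbrev Sq (f : F[X][X]) : Subgroup (Alg f)ˣ :=
  (powMonoidHom 2 : (Alg f)ˣ →* _).range

/-- Over the field `L` the class of `p` modulo squares is the class of `(-1)^(deg u) u` for a monic
`u`, prime to `f`, such that `f` is a square modulo `u`: it is the image of the class of the divisor
`u = 0, y = w` of the curve `y² = f(x)` under the map `x - X`. -/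
def LocSol {L : Type} [Field L] (f p : L[X]) : Prop :=
  ∃ u w s : L[X], u.Monic ∧ IsCoprime u f ∧ u ∣ w ^ 2 - f ∧
    f ∣ (-1) ^ u.natDegree * u - p * s ^ 2

/-- Over the extension `L` of `F(t)` the class of `u` is in the image of the Jacobian. -/
def LocAt (L : Type) [Field L] [Algebra (RatFunc F) L] (f : F[X][X]) (u : (Alg f)ˣ) : Prop :=
  ∃ p : (RatFunc F)[X], AdjoinRoot.mk (fK f) p = (u : Alg f) ∧
    LocSol ((fK f).map (algebraMap (RatFunc F) L)) (p.map (algebraMap (RatFunc F) L))

open Classical in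
/-- The 2-Selmer group of the Jacobian of `y² = f(x)`, in the classical description. -/
def Sel (f : F[X][X]) : Set ((Alg f)ˣ ⧸ Sq f) :=
  {ξ | ∃ u : (Alg f)ˣ, QuotientGroup.mk u = ξ ∧
    IsSquare (Algebra.norm (RatFunc F) (u : Alg f)) ∧
    (∀ v : IsDedekindDomain.HeightOneSpectrum F[X], LocAt (v.adicCompletion (RatFunc F)) f u) ∧
    LocAt (RatFunc.CompletionAtInfty F) f u}

variable (F)

/-- The monic polynomials `x^(2g+1) + a_1 x^(2g) + ... + a_(2g+1)` over `F[t]`, separable over
`F(t)`, with `deg a_i ≤ i h`. -/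
def Hyp (g h : ℕ) : Set F[X][X] :=
  {f | f.Monic ∧ f.natDegree = 2 * g + 1 ∧
    (∀ i ≤ 2 * g + 1, (f.coeff (2 * g + 1 - i)).natDegree ≤ i * h) ∧ (fK f).Separable}

/-- The main theorem. -/
def MainStmt : Prop :=
  ∀ g : ℕ, 1 ≤ g → ∃ δ : ℝ, 0 < δ ∧ ∃ h0 : ℕ, ∀ h : ℕ, h0 ≤ h →
    (Hyp F g h).Finite ∧ 0 < (Hyp F g h).ncard ∧
    δ * (Hyp F g h).ncard ≤ {f ∈ Hyp F g h | (Sel f).ncard = 1}.ncard

end Main

end Pool.HYP
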