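import Pool.Agent.H41.HYP.Base

/-!
# HYP: statements of the modules, part 1 (algebra over a field)
-/

set_option autoImplicit false

namespace Pool.HYP

open Polynomial Matrix Pool.AVS

/-- `G` is the orthogonal sum of `ε` and `Ψ`. -/
def Blk {L : Type} [Field L] {m : ℕ} (G : Matrix (Fin (m + 1)) (Fin (m + 1)) L) (ε : L)
    (Ψ : Matrix (Fin m) (Fin m) L) : Prop :=
  G 0 0 = ε ∧ (∀ j : Fin m, G 0 j.succ = 0 ∧ G j.succ 0 = 0) ∧
    ∀ i j : Fin m, G i.succ j.succ = Ψ i j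

/-- CHP: the characteristic polynomial of the pencil. -/
def CHPStmt : Prop :=
  ∀ (K : Type) [Field K] (n : ℕ) (f h : K[X]) (G S : Matrix (Fin n) (Fin n) K), f.Monic →
    f.natDegree = n → Rep n f h G S → G.det ≠ 0 → (pen G S).det = C G.det * f

/-- STAB: the stabiliser of a pencil with irreducible characteristic polynomial. -/
def STABStmt : Prop :=
  ∀ (K : Type) [Field K] (n : ℕ) (G S g : Matrix (Fin n) (Fin n) K), Gᵀ = G → Sᵀ = S →
    G.det ≠ 0 → Irreducible (pen G S).det → gᵀ * G * g = G → gᵀ * S * g = S → g = 1 ∨ g = -1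

/-- DIST: a common isotropic subspace of dimension `g`. -/
def DISTStmt : Prop :=
  ∀ (K : Type) [Field K] (g : ℕ) (f h : K[X])
    (G S : Matrix (Fin (2 * g + 1)) (Fin (2 * g + 1)) K), 1 ≤ g → f.Monic →
    f.natDegree = 2 * g + 1 → Irreducible f → NSq f h → G.det ≠ 0 → Rep (2 * g + 1) f h G S →
    (∀ i j : Fin (2 * g + 1), (i : ℕ) < g → (j : ℕ) < g → G i j = 0 ∧ S i j = 0) →
    ∃ s : K[X], f ∣ h - s ^ 2

/-- INV: a block of zeros of size `k × (n - k)`. -/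
def INVStmt : Prop :=
  ∀ (K : Type) [Field K] (n k : ℕ) (G S : Matrix (Fin n) (Fin n) K), 1 ≤ k → k < n →
    G.det ≠ 0 → (∀ i j : Fin n, (i : ℕ) < k → (j : ℕ) < n - k → G i j = 0 ∧ S i j = 0) →
    ¬ Irreducible (pen G S).det

/-- ZBD: a block of zeros of size `(k + 1) × (n - k)`. -/
def ZBDStmt : Prop :=
  ∀ (R : Type) [CommRing R] (n k : ℕ) (G : Matrix (Fin n) (Fin n) R), k < n →
    (∀ i j : Fin n, (i : ℕ) ≤ k → (j : ℕ) < n - k → G i j = 0) → G.det = 0

/-- SQI: change of the representative of a class. -/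
def SQIStmt : Prop :=
  ∀ (K : Type) [Field K] (n : ℕ) (f h h' s : K[X]), f.Monic → f.natDegree = n →
    IsCoprime s f → f ∣ h' - h * s ^ 2 →
    ∃ a : Matrix (Fin n) (Fin n) K, a.det ≠ 0 ∧ gr 0 n f h' = aᵀ * gr 0 n f h * a ∧
      gr 1 n f h' = aᵀ * gr 1 n f h * a

/-- SPC: isotropic subspaces of congruent and of proportional matrices. -/
def SPCStmt : Prop :=
  ∀ (L : Type) [Field L] (g n : ℕ) (G a : Matrix (Fin n) (Fin n) L) (c : L), a.det ≠ 0 →
    c ≠ 0 → (SplM g (aᵀ * G * a) ↔ SplM g G) ∧ (SplM g (c • G) ↔ SplM g G)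

/-- SCAL: scaling of the roots. -/
def SCALStmt : Prop :=
  ∀ (L : Type) [Field L] (g n : ℕ) (f u : L[X]) (d : L), d ≠ 0 → f.Monic → f.natDegree = n →
    (SplM g (gr 0 n f (u.comp (C d * X))) ↔ SplM g (gr 0 n (f.scaleRoots d) u))

/-- MULR: addition of a rational point of order two. -/
def MULRStmt : Prop :=
  ∀ (K : Type) [Field K] (G u w : K[X]) (E : K), G.Monic → G.eval E ≠ 0 → u.Monic →
    IsCoprime u ((X - C E) * G) → u ∣ w ^ 2 - (X - C E) * G →
    ∃ v w1 s : K[X], v.Monic ∧ IsCoprime v ((X - C E) * G) ∧ v ∣ w1 ^ 2 - (X - C E) * G ∧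
      IsCoprime s G ∧ G ∣ kap v - kap u * (C E - X) * s ^ 2 ∧
      IsSquare ((kap v).eval E * (kap u).eval E * G.eval E)

/-- NRC: the norm of the class of a divisor. -/
def NRCStmt : Prop :=
  ∀ (K : Type) [Field K] (f u w : K[X]), f.Monic → Odd f.natDegree → u.Monic →
    IsCoprime u f → u ∣ w ^ 2 - f → NSq f (kap u)

/-- DEC: decomposition of the form for `f = (x - c) γ`. -/
def DECStmt : Prop :=
  ∀ (L : Type) [Field L] (m : ℕ) (c : L) (γ h h1 : L[X]), γ.Monic → γ.natDegree = m →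
    γ.eval c ≠ 0 → γ ∣ h - h1 * (X - C c) →
    ∃ a G : Matrix (Fin (m + 1)) (Fin (m + 1)) L, a.det ≠ 0 ∧
      aᵀ * gr 0 (m + 1) ((X - C c) * γ) h * a = G ∧
      Blk G (h.eval c * γ.eval c) (gr 0 m γ h1)

/-- NMU: the norm and products. -/
def NMUStmt : Prop :=
  (∀ (L : Type) [Field L] (f γ h : L[X]), f.Monic → γ.Monic →
    Algebra.norm L (AdjoinRoot.mk (f * γ) h) =
      Algebra.norm L (AdjoinRoot.mk f h) * Algebra.norm L (AdjoinRoot.mk γ h)) ∧
  (∀ (L : Type) [Field L] (c : L) (h : L[X]),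
    Algebra.norm L (AdjoinRoot.mk (X - C c) h) = h.eval c) ∧
  (∀ (L : Type) [Field L] (c : L) (γ : L[X]), γ.Monic →
    Algebra.norm L (AdjoinRoot.mk γ (C c - X)) = γ.eval c) ∧
  (∀ (K L : Type) [Field K] [Field L] (ι : K →+* L) (f h : K[X]), f.Monic →
    Algebra.norm L (AdjoinRoot.mk (f.map ι) (h.map ι)) = ι (Algebra.norm K (AdjoinRoot.mk f h)))

end Pool.HYP
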