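import Pool.Agent.H41.HYP.S1

/-!
# HYP: statements of the modules, part 2 (local fields)
-/

set_option autoImplicit false

namespace Pool.HYP

open Polynomial Matrix Pool.AVS

section LocalDefs

variable {L : Type} [Field L]

/-- A polynomial over `O` as a polynomial over `L`. -/
noncomputable abbrev oL (O : ValuationSubring L) (p : O[X]) : L[X] := p.map (algebraMap O L)

/-- The reduction of a polynomial over `O`. -/
noncomputable abbrev rd (O : ValuationSubring L) (p : O[X]) : (IsLocalRing.ResidueField O)[X] :=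
  p.map (IsLocalRing.residue O)

/-- Over `L`, the class of `h` is the class of a unit. -/
def USL (O : ValuationSubring L) (f : O[X]) (h : L[X]) : Prop :=
  ∃ (s : L[X]) (p : O[X]), IsCoprime s (oL O f) ∧ oL O f ∣ h * s ^ 2 - oL O p ∧
    IsCoprime (rd O p) (rd O f)

/-- Over `L`, the class of `h` is trivial. -/
def TRL (O : ValuationSubring L) (f : O[X]) (h : L[X]) : Prop :=
  ∃ (s : L[X]) (p : O[X]), IsCoprime s (oL O f) ∧ oL O f ∣ h * s ^ 2 - oL O p ∧ rd O p = 1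

/-- `γ` is monic of degree `2 g`, irreducible modulo the maximal ideal. -/
def OkL (O : ValuationSubring L) (g : ℕ) (γ : O[X]) : Prop :=
  γ.Monic ∧ γ.natDegree = 2 * g ∧ Irreducible (rd O γ)

/-- For `f = (x - c) γ` the class of `h` has type `x`. -/
def TyL (O : ValuationSubring L) (π : L) (c : O) (γ : O[X]) (x : Ty) (h : L[X]) : Prop :=
  ∃ (n : ℤ) (p : O[X]), IsCoprime (rd O p) (rd O γ) ∧ oL O γ ∣ h - C (π ^ n) * oL O p ∧
    (n : ZMod 2) = x.1 ∧
    (x.2 = 0 ↔ IsSquare (h.eval (c : L) * ((oL O γ).eval (c : L)) ^ x.1.val))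

open Classical in
/-- The uniformizer at the maximal ideal `(π, γ)` of `O[x]/(f)`. -/
noncomputable def unf (O : ValuationSubring L) (ϖ : O) (f γ : O[X]) : O[X] :=
  if (rd O γ) ^ 2 ∣ rd O f then γ else C ϖ

/-- The order of `h` at the maximal ideal `(π, γ)` of `O[x]/(f)` is `n`. -/
def VAL (O : ValuationSubring L) (ϖ : O) (f γ : O[X]) (n : ℤ) (h : L[X]) : Prop :=
  ∃ (a b : O[X]) (k m : ℕ), IsCoprime (rd O a) (rd O γ) ∧ IsCoprime (rd O b) (rd O γ) ∧
    (m : ℤ) - (k : ℤ) = n ∧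
    oL O f ∣ oL O a * h * oL O (unf O ϖ f γ) ^ k - oL O b * oL O (unf O ϖ f γ) ^ m

/-- `f` is in the square of the maximal ideal `(π, γ)` of `O[x]`. -/
def InSq {O : Type} [CommRing O] (ϖ : O) (f γ : O[X]) : Prop :=
  ∃ a b c : O[X], f = γ ^ 2 * a + C ϖ * (γ * b) + C (ϖ ^ 2) * c

end LocalDefs

/-- UNI: unimodular symmetric matrices over a Henselian discrete valuation ring with finite
residue field. -/
def UNIStmt : Prop :=
  ∀ (L : Type) [Field L] (O : ValuationSubring L) (π : L), Loc L O π →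
    ∀ (m : ℕ) (G : Matrix (Fin m) (Fin m) L), Gᵀ = G → (∀ i j, G i j ∈ O) →
    UI (O : Set L) G.det →
    (∀ g : ℕ, m = 2 * g + 1 → SplM g G) ∧
    (∀ g : ℕ, m = 2 * g → IsSquare ((-1) ^ g * G.det) → SplM g G)

/-- NON: the sum of a unit and `π` times a unimodular matrix. -/
def NONStmt : Prop :=
  ∀ (L : Type) [Field L] (O : ValuationSubring L) (π : L), Loc L O π →
    ∀ (g : ℕ) (ε : L) (Ψ : Matrix (Fin (2 * g)) (Fin (2 * g)) L)
    (G : Matrix (Fin (2 * g + 1)) (Fin (2 * g + 1)) L), UI (O : Set L) ε → Ψᵀ = Ψ →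
    (∀ i j, Ψ i j ∈ O) → UI (O : Set L) Ψ.det → Blk G ε (π • Ψ) → SplM g G →
    IsSquare ((-1) ^ g * Ψ.det)

/-- UNR: the unramified extension `L[x]/(γ)`, `γ` irreducible modulo `π`. -/
def UNRStmt : Prop :=
  ∀ (L : Type) [Field L] (O : ValuationSubring L) (π : L), Loc L O π →
    ∀ γ : O[X], γ.Monic → Irreducible (rd O γ) →
    (∀ h : L[X], ¬ oL O γ ∣ h → ∃ (n : ℤ) (p : O[X]), IsCoprime (rd O p) (rd O γ) ∧
      oL O γ ∣ h - C (π ^ n) * oL O p) ∧
    (∀ (n n' : ℤ) (p p' : O[X]), IsCoprime (rd O p) (rd O γ) → IsCoprime (rd O p') (rd O γ) →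
      oL O γ ∣ C (π ^ n) * oL O p - C (π ^ n') * oL O p' → n = n') ∧
    (∀ p : O[X], IsCoprime (rd O p) (rd O γ) →
      UI (O : Set L) (Algebra.norm L (AdjoinRoot.mk (oL O γ) (oL O p)))) ∧
    (∀ p : O[X], IsCoprime (rd O p) (rd O γ) →
      IsSquare (Algebra.norm L (AdjoinRoot.mk (oL O γ) (oL O p))) →
      ∃ s : O[X], rd O γ ∣ rd O p - rd O s ^ 2)

/-- LDE: Hensel's lemma for `f = (x - c) γ` modulo `π`. -/
def LDEStmt : Prop :=
  ∀ (L : Type) [Field L] (O : ValuationSubring L) (π : L), Loc L O π →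
    ∀ (g : ℕ) (f : O[X]) (c₀ : IsLocalRing.ResidueField O)
    (γ₀ : (IsLocalRing.ResidueField O)[X]), 1 ≤ g → f.Monic → γ₀.Monic →
    γ₀.natDegree = 2 * g → Irreducible γ₀ → rd O f = (X - C c₀) * γ₀ →
    ∃ (c : O) (γ : O[X]), OkL O g γ ∧ f = (X - C c) * γ ∧ IsLocalRing.residue O c = c₀ ∧
      rd O γ = γ₀

/-- CLA: existence of the type. -/
def CLAStmt : Prop :=
  ∀ (L : Type) [Field L] (O : ValuationSubring L) (π : L), Loc L O π →
    ∀ (g : ℕ) (c : O) (γ : O[X]), 1 ≤ g → OkL O g γ →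
    ∀ h : L[X], IsCoprime h (oL O ((X - C c) * γ)) → ∃ x : Ty, TyL O π c γ x h

/-- TYQ: uniqueness of the type. -/
def TYQStmt : Prop :=
  ∀ (L : Type) [Field L] (O : ValuationSubring L) (π : L), Loc L O π →
    ∀ (g : ℕ) (c : O) (γ : O[X]), 1 ≤ g → OkL O g γ →
    ∀ (h : L[X]) (x y : Ty), TyL O π c γ x h → TyL O π c γ y h → x = y

/-- TYS: the type depends only on the class. -/
def TYSStmt : Prop :=
  ∀ (L : Type) [Field L] (O : ValuationSubring L) (π : L), Loc L O π →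
    ∀ (g : ℕ) (c : O) (γ : O[X]), 1 ≤ g → OkL O g γ →
    ∀ (h h' s : L[X]) (x : Ty), IsCoprime s (oL O ((X - C c) * γ)) →
      oL O ((X - C c) * γ) ∣ h' - h * s ^ 2 → TyL O π c γ x h → TyL O π c γ x h'

/-- TYM: the type is additive. -/
def TYMStmt : Prop :=
  ∀ (L : Type) [Field L] (O : ValuationSubring L) (π : L), Loc L O π →
    ∀ (g : ℕ) (c : O) (γ : O[X]), 1 ≤ g → OkL O g γ →
    ∀ (h h' : L[X]) (x y : Ty), IsCoprime h (oL O ((X - C c) * γ)) →
      IsCoprime h' (oL O ((X - C c) * γ)) → NSq (oL O ((X - C c) * γ)) h →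
      NSq (oL O ((X - C c) * γ)) h' → TyL O π c γ x h → TyL O π c γ y h' →
      TyL O π c γ (x + y) (h * h')

/-- TY0: type `0`. -/
def TY0Stmt : Prop :=
  ∀ (L : Type) [Field L] (O : ValuationSubring L) (π : L), Loc L O π →
    ∀ (g : ℕ) (c : O) (γ : O[X]), 1 ≤ g → OkL O g γ →
    ∀ h : L[X], IsCoprime h (oL O ((X - C c) * γ)) → NSq (oL O ((X - C c) * γ)) h →
      TyL O π c γ 0 h → TRL O ((X - C c) * γ) h

/-- TYU: classes of units. -/
def TYUStmt : Prop :=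
  ∀ (L : Type) [Field L] (O : ValuationSubring L) (π : L), Loc L O π →
    ∀ (g : ℕ) (c : O) (γ : O[X]), 1 ≤ g → OkL O g γ →
    ∀ (h : L[X]) (x : Ty), IsCoprime h (oL O ((X - C c) * γ)) →
      NSq (oL O ((X - C c) * γ)) h → TyL O π c γ x h →
      (USL O ((X - C c) * γ) h ↔ x.1 = 0)

/-- QSP: the form is split except for type `(1, 1)`. -/
def QSPStmt : Prop :=
  ∀ (L : Type) [Field L] (O : ValuationSubring L) (π : L), Loc L O π →
    ∀ (g : ℕ) (c : O) (γ : O[X]), 1 ≤ g → OkL O g γ →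
    ∀ (h : L[X]) (x : Ty), IsCoprime h (oL O ((X - C c) * γ)) →
      NSq (oL O ((X - C c) * γ)) h → TyL O π c γ x h →
      (SplM g (gr 0 (2 * g + 1) (oL O ((X - C c) * γ)) h) ↔ x ≠ (1, 1))

/-- USP: the form of the class of a unit is split. -/
def USPStmt : Prop :=
  ∀ (L : Type) [Field L] (O : ValuationSubring L) (π : L), Loc L O π →
    ∀ (g : ℕ) (f : O[X]) (h : L[X]), f.Monic → f.natDegree = 2 * g + 1 → USL O f h →
      SplM g (gr 0 (2 * g + 1) (oL O f) h)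

/-- TW2: local classes of a ramified twist. -/
def TW2Stmt : Prop :=
  ∀ (L : Type) [Field L] (O : ValuationSubring L) (π : L), Loc L O π →
    ∀ (g : ℕ) (c : O) (γ : O[X]), 1 ≤ g → OkL O g γ → ∀ d : L, UI (O : Set L) (d / π) →
    ∀ (u w s h : L[X]) (x : Ty), u.Monic →
      IsCoprime u ((oL O ((X - C c) * γ)).scaleRoots d) →
      u ∣ w ^ 2 - (oL O ((X - C c) * γ)).scaleRoots d →
      oL O ((X - C c) * γ) ∣ kap (u.comp (C d * X)) - h * s ^ 2 →
      IsCoprime h (oL O ((X - C c) * γ)) → NSq (oL O ((X - C c) * γ)) h →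
      TyL O π c γ x h → x.2 = 0

/-- EV0: the local ring of `O[x]/(f)` at `(π, γ)` is a discrete valuation ring. -/
def EV0Stmt : Prop :=
  ∀ (L : Type) [Field L] (O : ValuationSubring L) (π : L), Loc L O π →
    ∀ (ϖ : O) (f γ : O[X]), (ϖ : L) = π → f.Monic → γ.Monic → Irreducible (rd O γ) →
    rd O γ ∣ rd O f → ¬ InSq ϖ f γ →
    (∀ h : L[X], IsCoprime h (oL O f) → ∃ n : ℤ, VAL O ϖ f γ n h) ∧
    (∀ (h : L[X]) (n n' : ℤ), VAL O ϖ f γ n h → VAL O ϖ f γ n' h → n = n')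

/-- EV1: if `f` is a square modulo the primitive `v`, up to a unit, the orders of `v` are even. -/
def EV1Stmt : Prop :=
  ∀ (L : Type) [Field L] (O : ValuationSubring L) (π : L), Loc L O π →
    ∀ (ϖ : O) (f γ v : O[X]) (w : L[X]) (δ : L) (n : ℤ), (ϖ : L) = π → f.Monic → γ.Monic →
    Irreducible (rd O γ) → rd O γ ∣ rd O f → ¬ InSq ϖ f γ → rd O v ≠ 0 →
    IsCoprime (oL O v) (oL O f) → UI (O : Set L) δ → oL O v ∣ w ^ 2 - C δ * oL O f →
    VAL O ϖ f γ n (oL O v) → Even n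

/-- EV2: if all orders of `h` are even, then `h` is a square times a unit. -/
def EV2Stmt : Prop :=
  ∀ (L : Type) [Field L] (O : ValuationSubring L) (π : L), Loc L O π →
    ∀ (ϖ : O) (f : O[X]) (h : L[X]), (ϖ : L) = π → f.Monic → IsCoprime h (oL O f) →
    (∀ γ : O[X], γ.Monic → Irreducible (rd O γ) → rd O γ ∣ rd O f → ¬ InSq ϖ f γ ∧
      ∃ n : ℤ, Even n ∧ VAL O ϖ f γ n h) → USL O f h

/-- EVN: the class of a divisor is the class of a unit. -/
def EVNStmt : Prop :=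
  ∀ (L : Type) [Field L] (O : ValuationSubring L) (π : L), Loc L O π →
    ∀ (ϖ : O) (f : O[X]) (u w s h : L[X]) (δ ε : L), (ϖ : L) = π → f.Monic →
    Odd f.natDegree → (∀ γ : O[X], γ.Monic → Irreducible (rd O γ) → ¬ InSq ϖ f γ) →
    u.Monic → IsCoprime u (oL O f) → UI (O : Set L) δ → UI (O : Set L) ε →
    u ∣ w ^ 2 - C δ * oL O f → oL O f ∣ C ε * u - h * s ^ 2 → IsCoprime h (oL O f) →
    NSq (oL O f) h → USL O f h

/-- INO: from the completion to `F[t]`. -/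
def INOStmt : Prop :=
  ∀ (F : Type) [Field F] [Finite F] (P : F[X]), P.Monic → Irreducible P →
    ∀ (L : Type) [Field L] (O : ValuationSubring L) (ι : RatFunc F →+* L),
    IsComp F (IP P) (rf P) L O ι → ∀ f : F[X][X], f.Monic →
    ∃ fO : O[X], fO.Monic ∧ fO.natDegree = f.natDegree ∧ oL O fO = (fK f).map ι ∧
      (∀ ϖ : O, (ϖ : L) = ι (rf P) → ∀ γ : O[X], γ.Monic → Irreducible (rd O γ) →
        InSq ϖ fO γ → Sing P f) ∧
      (∀ (c : F[X]) (γ : F[X][X]) (g : ℕ), OkP g P γ → C P ∣ f - (X - C c) * γ →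
        ∃ (c₀ : IsLocalRing.ResidueField O) (γ₀ : (IsLocalRing.ResidueField O)[X]),
          γ₀.Monic ∧ γ₀.natDegree = 2 * g ∧ Irreducible γ₀ ∧ rd O fO = (X - C c₀) * γ₀) ∧
      (∀ h : (RatFunc F)[X], IsCoprime h (fK f) → (USL O fO (h.map ι) ↔ US P f h)) ∧
      (∀ h : (RatFunc F)[X], IsCoprime h (fK f) → TRL O fO (h.map ι) → TR P f h)

end Pool.HYP
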