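import Pool.Agent.H41.HYP.S5

/-!
# HYP: statements of the modules, part 6 (assembly)
-/

set_option autoImplicit false

namespace Pool.HYP

open Polynomial Matrix Pool.AVS

/-- EXD: existence of the local data. -/
def EXDStmt : Prop :=
  ∀ (F : Type) [Field F] [Finite F] (g k : ℕ), 1 ≤ g →
    ∃ D : Dat F, D.Ok g ∧ D.T.card = k ∧
      ∀ P ∈ D.T, 2 * (2 * g + 1) * D.T.card ≤ Nat.card F ^ P.natDegree

/-- HFN: the size of the set of all polynomials. -/
def HFNStmt : Prop :=
  ∀ (F : Type) [Field F] [Finite F] (g h : ℕ),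
    (Hyp F g h).Finite ∧
    (Hyp F g h).ncard ≤ Nat.card F ^ (h * ((2 * g + 1) * (g + 1)) + (2 * g + 1))

/-- TWI: the twists of the members of the family. -/
def TWIStmt : Prop :=
  ∀ (F : Type) [Field F] [Finite F] (g : ℕ) (D : Dat F) (h : ℕ), D.Ok g →
    ∀ f ∈ Fam g D h, ∀ S ⊆ D.T, f.scaleRoots (∏ P ∈ S, P) ∈ Hyp F g (h + D.deg)

/-- TWJ: scaling of the roots is injective. -/
def TWJStmt : Prop :=
  ∀ (F : Type) [Field F] (d : F[X]), d ≠ 0 →
    Function.Injective fun f : F[X][X] => f.scaleRoots d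

/-- FIN: the main theorem from its parts. -/
def FINStmt : Prop :=
  ∀ (F : Type) [Field F] [Finite F], (2 : F) ≠ 0 → MainStmt F

end Pool.HYP
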